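import Mathlib
import Pool.Agent.Q197.SG.Near

set_option autoImplicit false

/-!
# 11 or 15 points of nearly equal multiplicities and simple points: `h¹ = 0` up to single curves

Let `n = 11`, or `n = 15` and the number of points of multiplicity `m + 1` be divisible by three. At
`n` points of multiplicities `m` and `m + 1` and `p` simple points of the plane, `p ≥ 1`, every linear
system has the expected dimension, in every degree; one nonempty open set of points serves all degrees.
For `p = 0` this is so in every degree `d`, unless the system consists of exactly one curve while no curve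
is expected, `d` is divisible by three and lies in a short interval.
-/

namespace Pool.Agent.Results.MP_6ec8e4_ag.ElevenAndFifteenPoints

open MvPolynomial

/-- The forms of degree `d` with multiplicity at least `w i` at the point `(P i 0 : P i 1 : 1)` for all
`i`. -/
noncomputable def forms {n : ℕ} (P : Fin n → Fin 2 → ℂ) (w : Fin n → ℕ) (d : ℕ) :
    Submodule ℂ (MvPolynomial (Fin 3) ℂ) :=
  homogeneousSubmodule (Fin 3) ℂ d ⊓
    Submodule.restrictScalars ℂ
      (⨅ i : Fin n,
        (Ideal.span
          ({X 0 - C (P i 0) * X 2, X 1 - C (P i 1) * X 2} : Set (MvPolynomial (Fin 3) ℂ))) ^ (w i))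

theorem result (n m p : ℕ) (v : Fin n → ℕ) (hv : ∀ i, v i = m ∨ v i = m + 1)
    (hn : n = 11 ∨ (n = 15 ∧ 3 ∣ (Finset.univ.filter fun i => v i = m + 1).card)) :
    ∃ F : MvPolynomial (Fin (n + p) × Fin 2) ℂ, F ≠ 0 ∧ ∀ P : Fin (n + p) → Fin 2 → ℂ,
      eval (fun ij : Fin (n + p) × Fin 2 => P ij.1 ij.2) F ≠ 0 → ∀ d : ℕ,
        -- the expected dimension
        Module.finrank ℂ ↥(forms P (Fin.append v fun _ : Fin p => 1) d) =
          (d + 2).choose 2 - (∑ i, (v i + 1).choose 2 + p) ∨
        -- exactly one curve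
        (p = 0 ∧ Module.finrank ℂ ↥(forms P (Fin.append v fun _ : Fin p => 1) d) = 1 ∧
          (d + 2).choose 2 ≤ ∑ i, (v i + 1).choose 2 ∧ 3 ∣ d ∧
          ∑ i, (v i : ℝ) ≤ √(n : ℝ) * d ∧ √(n : ℝ) * (2 * d + 3) < n + 2 * ∑ i, (v i : ℝ)) := by
  have hNU : Pool.Agent.Q197.SG.NU n m v := ⟨hv, hn⟩
  rcases Nat.eq_zero_or_pos p with rfl | hp
  · obtain ⟨F, hF, h⟩ := Pool.Agent.Q197.SG.near_one hNU
    refine ⟨F.map (algebraMap ℚ ℂ), Pool.Agent.H932R3.map_ne_zero_of hF, fun P hP d => ?_⟩
    rw [eval_map] at hP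
    have e : forms P (Fin.append v fun _ : Fin 0 => 1) d = forms P v d := by
      unfold forms
      congr 2
      refine iInf_congr fun i => ?_
      have h1 := Fin.append_left v (fun _ : Fin 0 => 1) i
      have h2 : Fin.castAdd 0 i = i := rfl
      rw [h2] at h1
      rw [h1]
    rcases h P hP d with h1 | ⟨h1, h2⟩
    · left
      rw [e]
      exact h1
    · right
      rw [e]
      exact ⟨rfl, h1, h2⟩
  · obtain ⟨F, hF, h⟩ := Pool.Agent.Q197.SG.near_simple hNU hp
    refine ⟨F.map (algebraMap ℚ ℂ), Pool.Agent.H932R3.map_ne_zero_of hF, fun P hP d => ?_⟩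
    rw [eval_map] at hP
    left
    have h1 := h P hP d
    unfold Pool.Agent.H932R3.ExpDim at h1
    have e : ∑ i, (Fin.append v (fun _ : Fin p => 1) i + 1).choose 2 = ∑ i, (v i + 1).choose 2 + p := by
      rw [Fin.sum_univ_add]
      simp
    rw [e] at h1
    exact h1

end Pool.Agent.Results.MP_6ec8e4_ag.ElevenAndFifteenPoints
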